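import Pool.Agent.Helper70K9.F5.Tw
import Pool.Agent.Helper23K9.T5.Fin5

/-!
# The Tate conjecture at 5 for the covers: the conditions
-/

set_option autoImplicit false
set_option linter.all false

open Polynomial WeierstrassCurve WeierstrassCurve.Affine
open scoped Classical IntermediateField

namespace Pool.Agent.Helper70K9.F5

open Pool.Agent.TH115.GD (Pt act incl IsTower)
open Pool.Agent.Helper7K9.T3 (TateAt)
open Pool.Agent.Helper70K9.TN Pool.Agent.Helper23K9.T5

/-- For the curve `E : y² + (1 - b) x y - b y = x³ - b x²` with `b = β / γ`: the Tate conjecture at 5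
holds for the pullback by `t ↦ h(t)` for all polynomials `h` of degree prime to ten such that
`β(h(t))`, `γ(h(t))` are irreducible over `k` and `(β - e γ)(h(t))` is irreducible over `k(e)` for the
roots `e` of `X² - 11 X - 1`; and for all `h = tᴹ` with `M` prime to ten. -/
def TateCovers5 (k' K F : Type) {k : Type} [Field k] [Field k'] [Algebra k k'] [Field K]
    [Algebra k[X] K] [Field F] [Algebra k'[X] F] [IsFractionRing k'[X] F] [Algebra K F]
    (β γ : k[X]) : Prop :=
  (∀ h : k[X], Nat.Coprime h.natDegree 10 → Irreducible (β.comp h) → Irreducible (γ.comp h) →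
    (∀ e : k', e ^ 2 - 11 * e - 1 = 0 → Irreducible (tw5 e (β.comp h) (γ.comp h))) →
      TateAt (F := F) 5 k' (crvQ K (β.comp h) (γ.comp h))) ∧
  ∀ M : ℕ, Nat.Coprime M 10 → TateAt (F := F) 5 k' (crvQ K (β.comp (X ^ M)) (γ.comp (X ^ M)))

section pair

variable {k : Type} [Field k] [CharZero k]

theorem pairOK_irr {p q : k[X]} (hp : Irreducible p) (hq : Irreducible q) (hc : IsCoprime p q)
    (h5 : ¬ 5 ∣ p.natDegree) : PairOK p q := by
  refine ⟨hc, hp.ne_zero, hq.ne_zero, fun π hπ _ => hπ.separable,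
    ⟨p, 1, hp, h5, by norm_num, ?_, ?_⟩⟩
  · rw [pow_one]
    exact dvd_mul_right p q
  · rw [pow_succ, pow_one, mul_dvd_mul_iff_left hp.ne_zero]
    intro h
    exact hp.not_isUnit (hc.isUnit_of_dvd' dvd_rfl h)

theorem nPl_irr {p q : k[X]} (hp : Irreducible p) (hq : Irreducible q)
    (hd : p.natDegree = q.natDegree) : nPl p q ≤ 2 := by
  unfold nPl irr
  rw [if_pos hd, add_zero]
  refine (Multiset.toFinset_card_le _).trans ?_
  rw [UniqueFactorizationMonoid.normalizedFactors_mul hp.ne_zero hq.ne_zero,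
    UniqueFactorizationMonoid.normalizedFactors_irreducible hp,
    UniqueFactorizationMonoid.normalizedFactors_irreducible hq]
  simp

end pair

section main

variable {k k' K F : Type} [Field k] [CharZero k] [Field k'] [Algebra k k'] [Field K]
    [Algebra k[X] K] [Field F] [Algebra k'[X] F] [IsFractionRing k'[X] F] [Algebra K F]

theorem exists_isZ [IsSepClosure k k'] : ∃ z : k', IsZ z := by
  haveI : IsSepClosed k' := IsSepClosure.sep_closed k
  haveI : CharZero k' := charZero_of_injective_algebraMap (algebraMap k k').injective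
  haveI : NeZero ((5 : ℕ) : k') := ⟨by norm_num⟩
  obtain ⟨ζ, hζ⟩ := IsSepClosed.exists_root (cyclotomic 5 k')
    (by rw [degree_cyclotomic]; decide) (separable_cyclotomic 5 k')
  refine ⟨ζ, ?_⟩
  have h1 := hζ
  have h5 : Fact (Nat.Prime 5) := ⟨by norm_num⟩
  rw [IsRoot.def, cyclotomic_prime, eval_geom_sum] at h1
  unfold IsZ
  rw [← h1]
  simp only [Finset.sum_range_succ, Finset.sum_range_zero]
  ring

/-- The conditions on `β`, `γ`. -/
structure Gen5K (k' : Type) [Field k'] [Algebra k k'] (β γ : k[X]) : Prop where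
  b1 : Irreducible β
  b2 : NoSub 2 β
  g1 : Irreducible γ
  g2 : NoSub 2 γ
  cop : IsCoprime β γ
  deg : β.natDegree = γ.natDegree
  five : ¬ 5 ∣ β.natDegree
  e1 : ∀ e : k', e ^ 2 - 11 * e - 1 = 0 → Irreducible (tw5 e β γ)
  e2 : ∀ e : k', e ^ 2 - 11 * e - 1 = 0 → NoSub 2 (tw5 e β γ)
  edeg : ∀ e : k', e ^ 2 - 11 * e - 1 = 0 → (tw5 e β γ).natDegree = β.natDegree

/-- **The Tate conjecture at 5 for the covers.** -/
theorem cover_tate (hT : IsTower k k' K F) {β γ h : k[X]} (H : Gen5K k' β γ)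
    (hh : Nat.Coprime h.natDegree 10) (hβh : Irreducible (β.comp h))
    (hγh : Irreducible (γ.comp h))
    (heh : ∀ e : k', e ^ 2 - 11 * e - 1 = 0 → Irreducible (tw5 e (β.comp h) (γ.comp h))) :
    TateAt (F := F) 5 k' (crvQ K (β.comp h) (γ.comp h)) := by
  haveI := hT.sep
  haveI : Fact (Nat.Prime 5) := ⟨by norm_num⟩
  obtain ⟨z, hz⟩ := exists_isZ (k := k) (k' := k')
  have h5k : (5 : k) ≠ 0 := by norm_num
  have hodd : Odd h.natDegree := by
    rw [← Nat.coprime_two_right]
    exact Nat.Coprime.coprime_dvd_right (by norm_num) hh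
  have hh5 : ¬ 5 ∣ h.natDegree := by
    intro h6
    have h7 : 5 ∣ Nat.gcd h.natDegree 10 := Nat.dvd_gcd h6 (by norm_num)
    rw [hh] at h7
    norm_num at h7
  haveI : CharZero k⟮z⟯ := charZero_of_injective_algebraMap (algebraMap k k⟮z⟯).injective
  set z1 : k⟮z⟯ := IntermediateField.AdjoinSimple.gen k z with hz1
  have hz1c : (algebraMap k⟮z⟯ k') z1 = z := IntermediateField.AdjoinSimple.algebraMap_gen k z
  have hZ1 : IsZ z1 := by
    apply (algebraMap k⟮z⟯ k').injective
    simp only [map_add, map_pow, map_one, map_zero, hz1c]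
    exact hz
  have hep : (algebraMap k⟮z⟯ k') (ep z1) = ep z := by
    simp only [ep, Pool.Agent.Helper23K9.T5.eta, map_add, map_mul, map_pow, map_ofNat, hz1c]
  have hep' : (algebraMap k⟮z⟯ k') (ep' z1) = ep' z := by
    simp only [ep', Pool.Agent.Helper23K9.T5.eta', map_add, map_mul, map_pow, map_ofNat, hz1c]
  set β1 := (β.comp h).map (algebraMap k k⟮z⟯) with hβ1
  set γ1 := (γ.comp h).map (algebraMap k k⟮z⟯) with hγ1
  have i1 : Irreducible β1 := irr_base h5k hz H.b1 H.b1.separable H.b2 hβh hβh.separable hodd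
  have i2 : Irreducible γ1 := irr_base h5k hz H.g1 H.g1.separable H.g2 hγh hγh.separable hodd
  have hdc : ∀ f : k[X], ((f.comp h).map (algebraMap k k⟮z⟯)).natDegree =
      f.natDegree * h.natDegree := by
    intro f
    rw [natDegree_map, natDegree_comp]
  have key : ∀ (e : k') (e1 : k⟮z⟯), e ^ 2 - 11 * e - 1 = 0 → (algebraMap k⟮z⟯ k') e1 = e →
      Irreducible (β1 - C e1 * γ1) ∧ (β1 - C e1 * γ1).natDegree = β.natDegree * h.natDegree := by
    intro e e1 he hee
    haveI := sepClosure_adjoin (k := k) e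
    haveI : CharZero k⟮e⟯ := charZero_of_injective_algebraMap (algebraMap k k⟮e⟯).injective
    have hem : e ∈ k⟮z⟯ := by
      rw [← hee]
      exact e1.2
    have h1 := H.e1 e he
    have h2 := H.e2 e he
    have h3 := heh e he
    rw [tw5_comp] at h3
    have hd' : (h.map (algebraMap k k⟮e⟯)).natDegree = h.natDegree := natDegree_map _
    have h4 := irr_base (k := k⟮e⟯) (by norm_num) hz h1 h1.separable h2 h3 h3.separable
      (by rw [hd']; exact hodd)
    have hmap : (β1 - C e1 * γ1).map (algebraMap k⟮z⟯ k') =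
        ((tw5 e β γ).comp (h.map (algebraMap k k⟮e⟯))).map (algebraMap k⟮e⟯ k') := by
      rw [← tw5_comp, tw5_map, Polynomial.map_sub, Polynomial.map_mul, map_C, hee, hβ1, hγ1,
        Polynomial.map_map, Polynomial.map_map]
      rfl
    refine ⟨transfer hem h4 hmap, ?_⟩
    rw [← natDegree_map (algebraMap k⟮z⟯ k'), hmap, natDegree_map, natDegree_comp, H.edeg e he, hd']
  obtain ⟨a1, a2⟩ := key (ep z) (ep z1) (ep_root hz) hep
  obtain ⟨b1, b2⟩ := key (ep' z) (ep' z1) (ep_root' hz) hep'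
  have hcop : IsCoprime β1 γ1 := by
    have h1 : IsCoprime (β.comp h) (γ.comp h) := H.cop.map (Polynomial.compRingHom h)
    exact h1.map (Polynomial.mapRingHom (algebraMap k k⟮z⟯))
  have h5d : ¬ 5 ∣ β.natDegree * h.natDegree := by
    rw [Nat.Prime.dvd_mul (by norm_num)]
    rintro (h6 | h6)
    · exact H.five h6
    · exact hh5 h6
  have hne : ep z1 - ep' z1 ≠ 0 := by
    intro h6
    have h7 := ep_add hZ1
    have h8 := ep_mul hZ1
    have h9 : (125 : k⟮z⟯) = 0 := by
      have h10 : ep z1 = ep' z1 := sub_eq_zero.1 h6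
      rw [h10] at h7 h8
      linear_combination (-(2 * ep' z1) - 11) * h7 + 4 * h8
    norm_num at h9
  have hcop2 : IsCoprime (β1 - C (ep z1) * γ1) (β1 - C (ep' z1) * γ1) := by
    obtain ⟨u, v, huv⟩ := hcop
    set d := ep z1 - ep' z1 with hd
    have hdd : C d⁻¹ * C d = (1 : (k⟮z⟯)[X]) := by
      rw [← C_mul, inv_mul_cancel₀ hne, C_1]
    have hCd : C d = C (ep z1) - C (ep' z1) := by rw [hd, C_sub]
    refine ⟨-(C d⁻¹ * (u * C (ep' z1) + v)), C d⁻¹ * (u * C (ep z1) + v), ?_⟩
    linear_combination (u * β1 + v * γ1) * hdd - (C d⁻¹ * (u * β1 + v * γ1)) * hCd + huv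
  have hC : Crit5 z1 β1 γ1 := by
    refine ⟨pairOK_irr i1 i2 hcop ?_, pairOK_irr a1 b1 hcop2 ?_⟩
    · rw [hβ1, hdc]
      exact h5d
    · rw [a2]
      exact h5d
  have hN : nn5 z1 β1 γ1 ≤ 4 := by
    unfold nn5
    have n1 := nPl_irr i1 i2 (by rw [hβ1, hγ1, hdc, hdc, H.deg])
    have n2 := nPl_irr a1 b1 (by rw [a2, b2])
    omega
  exact tate_rank0 hT h5k hZ1 hC rfl hN

end main

end Pool.Agent.Helper70K9.F5
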