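import Pool.Agent.Helper70K9.F5.Par
import Pool.Agent.Helper70K9.F5.Cov

/-!
# Almost all elliptic surfaces with a section of order five, and their covers
-/

set_option autoImplicit false
set_option linter.all false

open Polynomial
open scoped IntermediateField

namespace Pool.Agent.Helper70K9.F5

open NumberField Pool.Agent.R939.EI Pool.Agent.R939.HI Pool.Agent.W275.UB
open Pool.Agent.R939.KM Pool.Agent.R939.PP Pool.Agent.Helper70K9.TN
open Pool.Agent.TH115.GD (IsTower)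
open Pool.Agent.Helper7K9.T3 (TateAt)

section main

variable {k k' K F : Type} [Field k] [Field k'] [Algebra k k'] [Field K]
    [Algebra k[X] K] [Field F] [Algebra k'[X] F] [IsFractionRing k'[X] F] [Algebra K F]

/-- **All covers for good parameters.** -/
theorem covers5_of [CharZero k] (hT : IsTower k k' K F) {m : ℕ} (h5 : ¬ 5 ∣ m) {β γ : k[X]}
    (H : AllC k' m β γ) : TateCovers5 k' K F β γ := by
  have hG : Gen5K k' β γ :=
    { b1 := H.b.irr
      b2 := H.b.sub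
      g1 := H.g.irr
      g2 := H.g.sub
      cop := H.cop
      deg := H.b.deg.trans H.g.deg.symm
      five := by rw [H.b.deg]; exact h5
      e1 := fun e he => (H.e e he).irr
      e2 := fun e he => (H.e e he).sub
      edeg := fun e he => (H.e e he).deg.trans H.b.deg.symm }
  refine ⟨fun h hh hb hg he => cover_tate hT hG hh hb hg he, ?_⟩
  intro M hM
  have hM2 : Nat.Coprime M 2 := Nat.Coprime.coprime_dvd_right (by norm_num) hM
  have hodd : Odd M := Nat.coprime_two_right.1 hM2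
  have h2 : ∀ ℓ : ℕ, ℓ.Prime → ℓ ∣ M → ℓ ≠ 2 := by
    rintro ℓ hℓ hℓM rfl
    exact (Nat.not_even_iff_odd.2 hodd) (even_iff_two_dvd.2 hℓM)
  refine cover_tate hT hG (h := X ^ M) ?_ ?_ ?_ ?_
  · rw [natDegree_X_pow]
    exact hM
  · exact irr_pow H.b.irr hodd fun ℓ hℓ hℓM => H.b.pow ℓ hℓ (h2 ℓ hℓ hℓM) β H.b.irr dvd_rfl
  · exact irr_pow H.g.irr hodd fun ℓ hℓ hℓM => H.g.pow ℓ hℓ (h2 ℓ hℓ hℓM) γ H.g.irr dvd_rfl
  · intro e he
    haveI : CharZero k⟮e⟯ := charZero_of_injective_algebraMap (algebraMap k k⟮e⟯).injective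
    rw [tw5_comp, Polynomial.map_pow, map_X]
    exact irr_pow (H.e e he).irr hodd fun ℓ hℓ hℓM =>
      (H.e e he).pow ℓ hℓ (h2 ℓ hℓ hℓM) _ (H.e e he).irr dvd_rfl

/-- **Almost all surfaces and all their covers.** -/
theorem almost_five [NumberField k] (hT : IsTower k k' K F) {J : Type} [Fintype J]
    (B : Module.Basis J ℤ (𝓞 k)) {m : ℕ} (hm : 3 ≤ m) (h5 : ¬ 5 ∣ m) {η : ℝ} (hη : 0 < η) :
    ∃ H0 : ℕ, ∀ H : ℕ, H0 ≤ H →
    (({x : (Fin (m + 1) → 𝓞 k) × (Fin (m + 1) → 𝓞 k) |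
      ((∀ j t, |B.repr (x.1 j) t| ≤ (H : ℤ)) ∧ ∀ j t, |B.repr (x.2 j) t| ≤ (H : ℤ)) ∧
      ¬ TateCovers5 k' K F (polA fun j => algebraMap (𝓞 k) k (x.1 j))
        (polA fun j => algebraMap (𝓞 k) k (x.2 j))}.ncard : ℕ) : ℝ) ≤
      η * (2 * H + 1) ^ (Fintype.card J * (2 * (m + 1))) := by
  classical
  haveI := hT.sep
  obtain ⟨H0, hH⟩ := dens_all (k' := k') (m := m) B hm η hη
  refine ⟨H0, fun H hHH => ?_⟩
  have h1 := hH H hHH
  have hcard : Fintype.card (I2 m × J) = Fintype.card J * (2 * (m + 1)) := by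
    rw [Fintype.card_prod, Fintype.card_sum, Fintype.card_fin]
    ring
  rw [hcard] at h1
  refine le_trans ?_ h1
  let φ : ((Fin (m + 1) → 𝓞 k) × (Fin (m + 1) → 𝓞 k)) → (I2 m × J → ℤ) := fun y o =>
    B.repr ((Sum.elim y.1 y.2 : I2 m → 𝓞 k) o.1) o.2
  have hkv : ∀ y (o : I2 m), kv B (φ y) o =
      algebraMap (𝓞 k) k ((Sum.elim y.1 y.2 : I2 m → 𝓞 k) o) := by
    intro y o
    show algebraMap (𝓞 k) k (elt B fun j =>
      B.repr ((Sum.elim y.1 y.2 : I2 m → 𝓞 k) o) j) = _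
    rw [← basis_elt B]
  have hinj : Function.Injective φ := by
    intro y z hyz
    have h3 : ∀ o : I2 m, (Sum.elim y.1 y.2 : I2 m → 𝓞 k) o = Sum.elim z.1 z.2 o := by
      intro o
      apply FaithfulSMul.algebraMap_injective (𝓞 k) k
      rw [← hkv, ← hkv, hyz]
    refine Prod.ext ?_ ?_
    · funext j
      exact h3 (Sum.inl j)
    · funext j
      exact h3 (Sum.inr j)
  have h4 : (Set.ncard {x : (Fin (m + 1) → 𝓞 k) × (Fin (m + 1) → 𝓞 k) |
      ((∀ j t, |B.repr (x.1 j) t| ≤ (H : ℤ)) ∧ ∀ j t, |B.repr (x.2 j) t| ≤ (H : ℤ)) ∧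
      ¬ TateCovers5 k' K F (polA fun j => algebraMap (𝓞 k) k (x.1 j))
        (polA fun j => algebraMap (𝓞 k) k (x.2 j))}) ≤
      Set.ncard {v : I2 m × J → ℤ | v ∈ {x : I2 m × J → ℤ | ¬ AllC k' m
        (polA fun j => kv B x (Sum.inl j)) (polA fun j => kv B x (Sum.inr j))} ∧
          ∀ i, |v i| ≤ (H : ℤ)} := by
    rw [← Set.ncard_image_of_injective _ hinj]
    refine Set.ncard_le_ncard ?_ (box_fin _ H)
    rintro _ ⟨y, ⟨⟨b1, b2⟩, hbad⟩, rfl⟩
    have ea : (fun j => kv B (φ y) (Sum.inl j)) = fun j => algebraMap (𝓞 k) k (y.1 j) := by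
      funext j
      exact hkv y (Sum.inl j)
    have eb : (fun j => kv B (φ y) (Sum.inr j)) = fun j => algebraMap (𝓞 k) k (y.2 j) := by
      funext j
      exact hkv y (Sum.inr j)
    refine ⟨?_, ?_⟩
    · rw [Set.mem_setOf_eq, ea, eb]
      exact fun hall => hbad (covers5_of hT h5 hall)
    · rintro ⟨j | j, t⟩
      · exact b1 j t
      · exact b2 j t
  exact_mod_cast h4

end main

end Pool.Agent.Helper70K9.F5
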