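import Pool.Agent.Helper70K9.TN.NoT

/-!
# Densities for one generic polynomial, and linear maps
-/

set_option autoImplicit false
set_option linter.all false

namespace Pool.Agent.Helper70K9.F5

open Polynomial NumberField Pool.Agent.R939.EI Pool.Agent.R939.HI Pool.Agent.W275.UB
open Pool.Agent.R939.KM Pool.Agent.R939.PP Pool.Agent.Helper70K9.TN

/-- The conditions on one polynomial. -/
structure GoodP {k : Type} [Field k] (m : ℕ) (f : k[X]) : Prop where
  irr : Irreducible f
  deg : f.natDegree = m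
  sub : NoSub 2 f
  pow : ∀ ℓ : ℕ, ℓ.Prime → ℓ ≠ 2 → NoPowerRoot f ℓ

section one

variable {k : Type} [Field k] [NumberField k] {J : Type} [Fintype J] (B : Module.Basis J ℤ (𝓞 k))

/-- The generic polynomial. -/
noncomputable def gp (m : ℕ) : (MvPolynomial (Fin (m + 1)) ℤ)[X] :=
  polA fun j => (MvPolynomial.X j : MvPolynomial (Fin (m + 1)) ℤ)

theorem gp_map {R : Type} [CommRing R] {m : ℕ} (v : Fin (m + 1) → R) :
    (gp m).map (av v) = polA v := by
  unfold gp
  rw [polA_map]
  simp only [av_X]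

theorem polA_add' {R : Type} [CommRing R] {n : ℕ} (f g : Fin (n + 1) → R) :
    polA (f + g) = polA f + polA g := by
  unfold polA
  rw [← Finset.sum_add_distrib]
  refine Finset.sum_congr rfl fun j _ => ?_
  rw [Pi.add_apply, C_add, add_mul]

/-- **One generic polynomial.** -/
theorem good_dens {m : ℕ} (hm : 3 ≤ m) :
    D0 {x : Fin (m + 1) × J → ℤ | ¬ GoodP m (polA (kv B x))} := by
  have hl0 : Fin.last m ≠ 0 := by
    intro h
    have h1 := congrArg Fin.val h
    simp at h1
    omega
  have e0 : ∀ p : ℕ, polA (Pi.single (Fin.last m) 1 + Pi.single 0 (p : ℤ) : Fin (m + 1) → ℤ) =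
      X ^ m + C (p : ℤ) := by
    intro p
    rw [polA_add', polA_single, polA_single, Fin.val_last, Fin.val_zero, C_1, one_mul, pow_zero,
      mul_one]
  have hdeg : (gp m).natDegree ≤ m := polA_natDegree _
  have hc : (gp m).coeff m ≠ 0 := by
    refine coeff_ne_of_target (p := 5) (by norm_num)
      (a := Pi.single (Fin.last m) 1 + Pi.single 0 ((5 : ℕ) : ℤ)) ?_
    rw [gp_map, e0, coeff_add, coeff_X_pow, if_pos rfl, coeff_C, if_neg (by omega), add_zero]
    exact isCoprime_one_left
  have d1 : D0 (RootSq B (gp m) 0 (m - 1)) := by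
    refine dens_eis (N := m) B (by omega) (by omega) hdeg ?_
    intro p hp _ _
    refine ⟨Pi.single (Fin.last m) 1 + Pi.single 0 (p : ℤ), 1, isCoprime_one_left, ?_⟩
    rw [gp_map, e0]
    refine ⟨?_, ?_, ?_⟩
    · rw [coeff_add, coeff_X_pow, if_neg (by omega), coeff_C_zero]
      ring
    · rw [coeff_add, coeff_X_pow, if_pos rfl, coeff_C, if_neg (by omega), add_zero]
      exact isCoprime_one_left
    · intro j h0 hN
      rw [coeff_add, coeff_X_pow, if_neg hN, coeff_C, if_neg h0]
      simp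
  have d2 := irr_dens B (by omega : 1 ≤ m) hdeg hc d1
  have d3 := noSub_dens B (e := 2) (by norm_num) hdeg hc fun h => by
    obtain ⟨c, hc'⟩ := h
    have hcm : m / 2 = c := by omega
    rw [hcm]
    refine dens_edge (N := m) B hm (by omega) ?_ hdeg ?_
    · intro e he1 he2
      have hg : Nat.gcd e (m - 1) = 1 := by
        interval_cases e
        · exact Nat.gcd_one_left _
        · have h3 : Odd (m - 1) := ⟨c - 1, by omega⟩
          exact (Nat.coprime_two_left).2 h3
      rw [hg]
      omega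
    · intro p hp _ _
      have hone : ((1 : Fin (m + 1)) : ℕ) = 1 := by
        rw [Fin.val_one']
        exact Nat.mod_eq_of_lt (by omega)
      have e1 : polA (Pi.single (Fin.last m) 1 + Pi.single 1 (p : ℤ) : Fin (m + 1) → ℤ) =
          X ^ m + C (p : ℤ) * X ^ 1 := by
        rw [polA_add', polA_single, polA_single, Fin.val_last, hone, C_1, one_mul]
      refine ⟨Pi.single (Fin.last m) 1 + Pi.single 1 (p : ℤ), 1, isCoprime_one_left, ?_⟩
      rw [gp_map, e1]
      refine ⟨?_, ?_, ?_, ?_⟩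
      · rw [coeff_add, coeff_X_pow, if_neg (by omega), coeff_C_mul, coeff_X_pow, if_pos rfl]
        ring
      · rw [coeff_add, coeff_X_pow, if_neg (by omega), coeff_C_mul, coeff_X_pow,
          if_neg (by omega)]
        simp
      · rw [coeff_add, coeff_X_pow, if_pos rfl, coeff_C_mul, coeff_X_pow, if_neg (by omega),
          mul_zero, add_zero]
        exact isCoprime_one_left
      · intro j h0 h1 hN
        rw [coeff_add, coeff_X_pow, if_neg hN, coeff_C_mul, coeff_X_pow, if_neg h1]
        simp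
  have hco : ∀ j : Fin (m + 1), (gp m).coeff (j : ℕ) = MvPolynomial.X j := fun j => coeff_polA _ j
  have d4 := noPow_of B hdeg (U := MvPolynomial.X 0) (V := MvPolynomial.X (Fin.last m))
    (by simpa using hco 0) (by simpa using hco (Fin.last m))
    (by
      have h1 := shal_coord B (0 : Fin (m + 1))
      have h2 : val B (MvPolynomial.X (0 : Fin (m + 1)) : MvPolynomial (Fin (m + 1)) ℤ) =
          fun x => elt B fun t => x (0, t) := by
        funext x
        exact val_X B 0 x
      rw [h2]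
      exact h1)
    (by
      have h1 := shal_coord B (Fin.last m)
      have h2 : val B (MvPolynomial.X (Fin.last m) : MvPolynomial (Fin (m + 1)) ℤ) =
          fun x => elt B fun t => x (Fin.last m, t) := by
        funext x
        exact val_X B _ x
      rw [h2]
      exact h1)
    (by
      intro p hp _ _
      refine ⟨Pi.single (Fin.last m) 1 + Pi.single 0 (p : ℤ), 1, isCoprime_one_left, ?_, ?_⟩
      · rw [av_X, Pi.add_apply, Pi.single_eq_of_ne hl0.symm, Pi.single_eq_same]
        ring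
      · rw [av_X, Pi.add_apply, Pi.single_eq_same, Pi.single_eq_of_ne hl0, add_zero]
        exact isCoprime_one_left)
  intro ε hε
  refine (((d2.union d3).union d4) ε hε).mono ?_
  intro x hx
  by_contra hcon
  have k12 : Irreducible (polA (kv B x)) ∧ (polA (kv B x)).natDegree = m := by
    by_contra h
    refine hcon (Or.inl (Or.inl ?_))
    rw [Set.mem_setOf_eq, gp_map]
    exact h
  have k3 : NoSub 2 (polA (kv B x)) := by
    by_contra h
    refine hcon (Or.inl (Or.inr ?_))
    rw [Set.mem_setOf_eq, gp_map]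
    exact h
  refine hx ⟨k12.1, k12.2, k3, fun ℓ h1 h2 => ?_⟩
  by_contra h
  refine hcon (Or.inr ?_)
  rw [Set.mem_setOf_eq, gp_map]
  exact ⟨k12.1, ℓ, h1, h2, h⟩

end one

section lin

/-- **Preimages under maps which are injective together with some coordinates.** -/
theorem D0_pull {ι κ ρ : Type} [Fintype ι] [Fintype κ] [Fintype ρ] {S : Set (κ → ℤ)}
    (hS : D0 S) (φ : (ι → ℤ) → κ → ℤ) (c : ℕ)
    (hc : ∀ (x : ι → ℤ) (H : ℕ), (∀ i, |x i| ≤ (H : ℤ)) → ∀ j, |φ x j| ≤ ((c * H : ℕ) : ℤ))
    (π : ρ → ι) (hinj : ∀ x y : ι → ℤ, φ x = φ y → (∀ r, x (π r) = y (π r)) → x = y)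
    (hcard : Fintype.card ι = Fintype.card κ + Fintype.card ρ) :
    D0 {x : ι → ℤ | φ x ∈ S} := by
  classical
  intro ε hε
  have hd : (0 : ℝ) < ((c : ℝ) + 1) ^ Fintype.card κ := by positivity
  obtain ⟨H0, hH⟩ := hS (ε / ((c : ℝ) + 1) ^ Fintype.card κ) (by positivity)
  refine ⟨H0, fun H hHH => ?_⟩
  have h1 := hH ((c + 1) * H) (by nlinarith)
  set bad := {v : ι → ℤ | v ∈ {x : ι → ℤ | φ x ∈ S} ∧ ∀ i, |v i| ≤ (H : ℤ)} with hbad
  set A := {v : κ → ℤ | v ∈ S ∧ ∀ i, |v i| ≤ (((c + 1) * H : ℕ) : ℤ)} with hA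
  set R := {z : ρ → ℤ | ∀ i, |z i| ≤ (H : ℤ)} with hR
  let ψ : (ι → ℤ) → (κ → ℤ) × (ρ → ℤ) := fun x => (φ x, fun r => x (π r))
  have hψ : Function.Injective ψ := by
    intro x y hxy
    exact hinj x y (congrArg Prod.fst hxy) fun r => congrFun (congrArg Prod.snd hxy) r
  have hAf : A.Finite := box_fin S _
  have hRf : R.Finite := by
    refine (box_fin (ι := ρ) Set.univ H).subset ?_
    intro z hz
    exact ⟨trivial, hz⟩
  have hsub : ψ '' bad ⊆ A ×ˢ R := by
    rintro _ ⟨x, ⟨hx1, hx2⟩, rfl⟩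
    refine ⟨⟨hx1, fun j => (hc x H hx2 j).trans ?_⟩, fun r => hx2 (π r)⟩
    have : c * H ≤ (c + 1) * H := Nat.mul_le_mul_right _ (Nat.le_succ c)
    exact_mod_cast this
  have h2 : bad.ncard ≤ A.ncard * R.ncard := by
    rw [← Set.ncard_image_of_injective bad hψ, ← Set.ncard_prod]
    exact Set.ncard_le_ncard hsub (hAf.prod hRf)
  have h3 : R.ncard = (2 * H + 1) ^ Fintype.card ρ := by
    have := box_ncard ρ H
    rw [← this]
  have h5 : (bad.ncard : ℝ) ≤ A.ncard * R.ncard := by exact_mod_cast h2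
  refine h5.trans ?_
  rw [hcard, pow_add, ← mul_assoc]
  refine mul_le_mul ?_ (le_of_eq ?_) (Nat.cast_nonneg _) (by positivity)
  · refine h1.trans ?_
    rw [div_mul_eq_mul_div, div_le_iff₀ hd, mul_assoc, ← mul_pow]
    refine mul_le_mul_of_nonneg_left (pow_le_pow_left₀ (by positivity) ?_ _) hε.le
    push_cast
    have : (0 : ℝ) ≤ c := Nat.cast_nonneg c
    have hH0 : (0 : ℝ) ≤ H := Nat.cast_nonneg H
    nlinarith
  · rw [h3]
    push_cast
    rfl

end lin

end Pool.Agent.Helper70K9.F5
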