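import Pool.Agent.Helper70K9.F5.Gal
import Pool.Agent.Helper23K9.T5.Alg

/-!
# The field generated by a fifth root of unity
-/

set_option autoImplicit false
set_option linter.all false

open Polynomial
open scoped Classical IntermediateField

namespace Pool.Agent.Helper70K9.F5

open Pool.Agent.Helper7K9.T3 Pool.Agent.Helper70K9.TN Pool.Agent.Helper23K9.T5

section z

variable {F : Type} [Field F]

/-- the roots of the cyclotomic polynomial -/
theorem isZ_eq {z w : F} (hz : IsZ z) (hw : IsZ w) : w = z ∨ w = z ^ 2 ∨ w = z ^ 3 ∨ w = z ^ 4 := by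
  have h : (w - z) * (w - z ^ 2) * (w - z ^ 3) * (w - z ^ 4) = 0 := by
    unfold IsZ at hz hw
    linear_combination hw + (-w ^ 3 + w ^ 2 * (z ^ 3 + z - 1) - w * (z ^ 5 - z + 1) +
      (z ^ 5 + 1) * (z - 1)) * hz
  rcases mul_eq_zero.1 h with h | h
  · rcases mul_eq_zero.1 h with h | h
    · rcases mul_eq_zero.1 h with h | h
      · exact Or.inl (sub_eq_zero.1 h)
      · exact Or.inr (Or.inl (sub_eq_zero.1 h))
    · exact Or.inr (Or.inr (Or.inl (sub_eq_zero.1 h)))
  · exact Or.inr (Or.inr (Or.inr (sub_eq_zero.1 h)))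

theorem ep_add {z : F} (hz : IsZ z) : ep z + ep' z = 11 := by
  unfold IsZ at hz
  simp only [ep, ep', Pool.Agent.Helper23K9.T5.eta, Pool.Agent.Helper23K9.T5.eta']
  linear_combination 5 * hz

theorem ep_mul {z : F} (hz : IsZ z) : ep z * ep' z = -1 := by
  unfold IsZ at hz
  simp only [ep, ep', Pool.Agent.Helper23K9.T5.eta, Pool.Agent.Helper23K9.T5.eta']
  linear_combination (25 * z ^ 3 - 25 * z + 65) * hz

theorem ep_root {z : F} (hz : IsZ z) : ep z ^ 2 - 11 * ep z - 1 = 0 := by
  have h1 := ep_add hz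
  have h2 := ep_mul hz
  linear_combination ep z * h1 - h2

theorem ep_root' {z : F} (hz : IsZ z) : ep' z ^ 2 - 11 * ep' z - 1 = 0 := by
  have h1 := ep_add hz
  have h2 := ep_mul hz
  linear_combination ep' z * h1 - h2

theorem root_ep {z e : F} (hz : IsZ z) (he : e ^ 2 - 11 * e - 1 = 0) : e = ep z ∨ e = ep' z := by
  have h1 := ep_add hz
  have h2 := ep_mul hz
  have h : (e - ep z) * (e - ep' z) = 0 := by
    linear_combination he - e * h1 + h2
  rcases mul_eq_zero.1 h with h | h
  · exact Or.inl (sub_eq_zero.1 h)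
  · exact Or.inr (sub_eq_zero.1 h)

end z

section root

variable {k k' : Type} [Field k] [Field k'] [Algebra k k'] [IsSepClosure k k']

theorem isZ_map {z : k'} (hz : IsZ z) (s : k' ≃ₐ[k] k') : IsZ (s z) := by
  unfold IsZ at hz ⊢
  rw [← map_pow, ← map_pow, ← map_pow, ← map_add, ← map_add, ← map_add, ← map_one s, ← map_add, hz,
    map_zero]

theorem normal5 {z : k'} (hz : IsZ z) : (MulAction.stabilizer (k' ≃ₐ[k] k') z).Normal := by
  refine ⟨fun g hg s => ?_⟩
  have hg' : g z = z := hg
  show (s * g * s⁻¹) z = z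
  rw [AlgEquiv.mul_apply, AlgEquiv.mul_apply]
  have h1 : IsZ (s⁻¹ z) := isZ_map hz s⁻¹
  have h2 : g (s⁻¹ z) = s⁻¹ z := by
    rcases isZ_eq hz h1 with h | h | h | h <;> rw [h] <;> simp only [map_pow, hg']
  rw [h2]
  exact s.apply_symm_apply z

theorem index5 {z : k'} (hz : IsZ z) : (MulAction.stabilizer (k' ≃ₐ[k] k') z).index ≤ 4 := by
  rw [stab_index]
  have h2 : minpoly k z ∣ X ^ 4 + X ^ 3 + X ^ 2 + X + 1 := by
    apply minpoly.dvd
    simp only [map_add, map_pow, aeval_X, map_one]
    exact hz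
  have h3 : (X ^ 4 + X ^ 3 + X ^ 2 + X + 1 : k[X]).natDegree = 4 := by compute_degree!
  have h4 : (X ^ 4 + X ^ 3 + X ^ 2 + X + 1 : k[X]) ≠ 0 := by
    intro h
    rw [h, natDegree_zero] at h3
    norm_num at h3
  rw [← h3]
  exact natDegree_le_of_dvd h2 h4

theorem index_ne {z : k'} : (MulAction.stabilizer (k' ≃ₐ[k] k') z).index ≠ 0 := by
  haveI : IsSepClosed k' := IsSepClosure.sep_closed k
  rw [stab_index]
  exact (minpoly.natDegree_pos (Algebra.IsIntegral.isIntegral z)).ne'

theorem index_e {e : k'} (he : e ^ 2 - 11 * e - 1 = 0) :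
    (MulAction.stabilizer (k' ≃ₐ[k] k') e).index ≤ 2 := by
  rw [stab_index]
  have h2 : minpoly k e ∣ X ^ 2 - 11 * X - 1 := by
    apply minpoly.dvd
    simp only [map_sub, map_mul, map_pow, aeval_X, map_one, map_ofNat]
    exact he
  have h3 : (X ^ 2 - 11 * X - 1 : k[X]).natDegree = 2 := by
    have : (X ^ 2 - 11 * X - 1 : k[X]) = X ^ 2 - C 11 * X - 1 := by
      rw [show (C 11 : k[X]) = 11 from map_ofNat C 11]
    rw [this]
    compute_degree!
  have h4 : (X ^ 2 - 11 * X - 1 : k[X]) ≠ 0 := by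
    intro h
    rw [h, natDegree_zero] at h3
    norm_num at h3
  rw [← h3]
  exact natDegree_le_of_dvd h2 h4

/-- The chain of subgroups. -/
theorem chain5 (h5 : (5 : k) ≠ 0) {z : k'} (hz : IsZ z) :
    MulAction.stabilizer (k' ≃ₐ[k] k') z ≤ MulAction.stabilizer (k' ≃ₐ[k] k') (ep z) ∧
      (MulAction.stabilizer (k' ≃ₐ[k] k') (ep z)).index ∣ 2 ∧
      (MulAction.stabilizer (k' ≃ₐ[k] k') z).relIndex
        (MulAction.stabilizer (k' ≃ₐ[k] k') (ep z)) ∣ 2 := by
  haveI : IsSepClosed k' := IsSepClosure.sep_closed k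
  haveI : IsGalois k k' := inferInstance
  set H := MulAction.stabilizer (k' ≃ₐ[k] k') z with hH
  set M := MulAction.stabilizer (k' ≃ₐ[k] k') (ep z) with hM
  have hle : H ≤ M := by
    intro s hs
    have h1 : s z = z := hs
    show s (ep z) = ep z
    simp only [ep, Pool.Agent.Helper23K9.T5.eta, map_add, map_mul, map_pow, h1, map_ofNat]
  have e1 := Subgroup.relIndex_mul_index hle
  have a1 : H.index ≤ 4 := index5 hz
  have a2 : M.index ≤ 2 := index_e (ep_root hz)
  have a3 : H.index ≠ 0 := index_ne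
  have a4 : M.index ≠ 0 := index_ne
  have small : ∀ n : ℕ, n ≠ 0 → n ≤ 2 → n ∣ 2 := by
    intro n h1 h2
    interval_cases n
    · exact (h1 rfl).elim
    · norm_num
    · norm_num
  refine ⟨hle, small _ a4 a2, ?_⟩
  have a5 : H.relIndex M ≠ 0 := by
    intro h
    rw [h, zero_mul] at e1
    exact a3 e1.symm
  refine small _ a5 ?_
  by_cases hM1 : M.index = 1
  · rw [hM1, mul_one] at e1
    rw [e1]
    have h1 : ep z ∈ Set.range (algebraMap k k') := by
      rw [InfiniteGalois.mem_range_algebraMap_iff_fixed]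
      intro s
      have : s ∈ M := by
        rw [Subgroup.index_eq_one.1 hM1]
        exact Subgroup.mem_top s
      exact this
    obtain ⟨x, hx⟩ := h1
    have h5' : (5 : k') ≠ 0 := by
      intro h
      apply h5
      apply (algebraMap k k').injective
      rw [map_ofNat, map_zero, h]
    have h2 : algebraMap k k' ((x - 8) / 5) = Pool.Agent.Helper23K9.T5.eta z := by
      rw [map_div₀, map_sub, hx, map_ofNat, map_ofNat]
      unfold ep
      field_simp
      ring
    rw [hH, stab_index]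
    have h3 : minpoly k z ∣ X ^ 2 - C ((x - 8) / 5) * X + 1 := by
      apply minpoly.dvd
      simp only [map_add, map_sub, map_mul, map_pow, aeval_X, map_one, aeval_C]
      rw [h2]
      unfold Pool.Agent.Helper23K9.T5.eta
      have := hz.five
      linear_combination -this
    have h4 : (X ^ 2 - C ((x - 8) / 5) * X + 1 : k[X]).natDegree = 2 := by compute_degree!
    have h6 : (X ^ 2 - C ((x - 8) / 5) * X + 1 : k[X]) ≠ 0 := by
      intro h
      rw [h, natDegree_zero] at h4
      norm_num at h4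
    rw [← h4]
    exact natDegree_le_of_dvd h3 h6
  · have h2 : M.index = 2 := by omega
    rw [h2] at e1
    omega

/-- **Irreducibility over the field generated by the fifth roots of unity.** -/
theorem irr_base (h5 : (5 : k) ≠ 0) {z : k'} (hz : IsZ z) {π h : k[X]} (hπ : Irreducible π)
    (hs : π.Separable) (h2 : NoSub 2 π) (hπh : Irreducible (π.comp h))
    (hsh : (π.comp h).Separable) (hodd : Odd h.natDegree) :
    Irreducible ((π.comp h).map (algebraMap k k⟮z⟯)) := by
  haveI : IsSepClosed k' := IsSepClosure.sep_closed k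
  haveI : IsGalois k k' := inferInstance
  haveI : FiniteDimensional k k⟮z⟯ :=
    IntermediateField.adjoin.finiteDimensional (Algebra.IsIntegral.isIntegral z)
  obtain ⟨θ, hθ⟩ := exists_root_irr (k' := k') hπh hsh
  obtain ⟨c1, c2, c3⟩ := chain5 (k := k) h5 hz
  have hn := normal5 (k := k) hz
  have h1 := sup_top_comp hπ hs h2 hπh hodd hθ hn c1 c2 c3
  rw [stab_eq z] at h1 hn
  exact irr_of_sup hπh hsh k⟮z⟯ hθ hn h1

end root

end Pool.Agent.Helper70K9.F5
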