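import Pool.Agent.Helper70K9.TN.Sub

/-!
# Irreducibility over an abelian extension of degree dividing four
-/

set_option autoImplicit false
set_option linter.all false

open Polynomial
open scoped Classical IntermediateField

namespace Pool.Agent.Helper70K9.F5

open Pool.Agent.Helper7K9.T3 Pool.Agent.Helper70K9.TN

section root

variable {k k' : Type} [Field k] [Field k'] [Algebra k k'] [IsSepClosure k k']

theorem dvd_four {n : ℕ} (h : n ∣ 4) : n = 1 ∨ n = 2 ∨ n = 4 := by
  have h1 := Nat.le_of_dvd (by norm_num) h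
  interval_cases n
  · omega
  · omega
  · omega
  · omega
  · omega

/-- The stabilizer of a root and `H` generate everything. -/
theorem sup_top {π : k[X]} (hπ : Irreducible π) (hs : π.Separable) (h2 : NoSub 2 π) {θ : k'}
    (hθ : (π.map (algebraMap k k')).IsRoot θ) {H M : Subgroup (k' ≃ₐ[k] k')}
    (hHM : H ≤ M) (hM : M.index ∣ 2) (hHr : H.relIndex M ∣ 2) :
    MulAction.stabilizer (k' ≃ₐ[k] k') θ ⊔ H = ⊤ := by
  set S := MulAction.stabilizer (k' ≃ₐ[k] k') θ with hS
  have e1 := Subgroup.relIndex_mul_index hHM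
  have e2 := Subgroup.relIndex_mul_index (le_sup_right : H ≤ S ⊔ H)
  have h4 : H.index ∣ 4 := by
    rw [← e1, show (4 : ℕ) = 2 * 2 by norm_num]
    exact Nat.mul_dvd_mul hHr hM
  have h5 : (S ⊔ H).index ∣ 4 := (Dvd.intro_left _ e2).trans h4
  have h0 : H.index ≠ 0 := by
    intro h
    rw [h] at h4
    norm_num at h4
  rcases dvd_four h5 with h | h | h
  · exact Subgroup.index_eq_one.1 h
  · exact (stab_sub hπ hs hθ (le_sup_left : S ≤ S ⊔ H) h (by norm_num) h2).elim
  · exfalso
    rw [h] at e2
    have h6 : H.relIndex (S ⊔ H) = 1 := by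
      have h7 := Nat.le_of_dvd (by norm_num) h4
      have h8 : H.relIndex (S ⊔ H) ≠ 0 := by
        intro h9
        rw [h9] at e2
        omega
      omega
    rw [Subgroup.relIndex_eq_one] at h6
    have h7 : S ≤ M := (le_sup_left.trans h6).trans hHM
    have h8 : M.index = 2 := by
      rcases (Nat.dvd_prime Nat.prime_two).1 hM with h9 | h9
      · exfalso
        have h10 := Nat.le_of_dvd (by norm_num) hHr
        rw [h9] at e1
        have : 4 ≤ H.index := by
          have := Nat.pos_of_ne_zero h0
          have h11 : H.relIndex (S ⊔ H) = 1 := (Subgroup.relIndex_eq_one).2 h6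
          rw [h11] at e2
          omega
        omega
      · exact h9
    exact stab_sub hπ hs hθ h7 h8 (by norm_num) h2

/-- The same for a root of a composition. -/
theorem sup_top_comp {π h : k[X]} (hπ : Irreducible π) (hs : π.Separable) (h2 : NoSub 2 π)
    (hπh : Irreducible (π.comp h)) (hodd : Odd h.natDegree) {θ : k'}
    (hθ : ((π.comp h).map (algebraMap k k')).IsRoot θ) {H M : Subgroup (k' ≃ₐ[k] k')}
    (hHn : H.Normal) (hHM : H ≤ M) (hM : M.index ∣ 2) (hHr : H.relIndex M ∣ 2) :
    MulAction.stabilizer (k' ≃ₐ[k] k') θ ⊔ H = ⊤ := by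
  have h1 := sup_top hπ hs h2 (root_comp hθ) hHM hM hHr
  set S := MulAction.stabilizer (k' ≃ₐ[k] k') θ with hS
  set S' := MulAction.stabilizer (k' ≃ₐ[k] k') (aeval θ h : k') with hS'
  have hSS : S ≤ S' := stab_comp_le h θ
  have hidx : S.relIndex S' = h.natDegree := stab_comp_index hπ hπh hθ
  have e1 := Subgroup.relIndex_mul_index hHM
  have h4 : H.index ∣ 4 := by
    rw [← e1, show (4 : ℕ) = 2 * 2 by norm_num]
    exact Nat.mul_dvd_mul hHr hM
  have h0 : H.index ≠ 0 := by
    intro h
    rw [h] at h4
    norm_num at h4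
  have e2 : H.relIndex S' = H.index := by
    have h5 : H.relIndex (S' ⊔ H) = H.relIndex S' := Subgroup.relIndex_sup_right S' H
    rw [h1, Subgroup.relIndex_top_right] at h5
    exact h5.symm
  have e3 := Subgroup.relIndex_mul_relIndex (S ⊓ H) (S' ⊓ H) S' (inf_le_inf_right H hSS)
    inf_le_left
  have e4 := Subgroup.relIndex_mul_relIndex (S ⊓ H) S S' inf_le_left hSS
  have e5 : (S ⊓ H).relIndex S = H.relIndex S := Subgroup.inf_relIndex_left S H
  have e6 : (S' ⊓ H).relIndex S' = H.relIndex S' := Subgroup.inf_relIndex_left S' H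
  rw [hidx, e5] at e4
  rw [e6, e2] at e3
  have h5 : H.index ∣ H.relIndex S := by
    have h6 : H.index ∣ H.relIndex S * h.natDegree := by
      rw [e4, ← e3]
      exact Dvd.intro_left _ rfl
    have h7 : Nat.Coprime H.index h.natDegree := by
      have h8 : Nat.Coprime 4 h.natDegree := by
        rw [show (4 : ℕ) = 2 ^ 2 by norm_num]
        exact Nat.Coprime.pow_left 2 ((Nat.coprime_two_left).2 hodd)
      exact Nat.Coprime.coprime_dvd_left h4 h8
    exact h7.dvd_of_dvd_mul_right h6
  have e7 : H.relIndex (S ⊔ H) = H.relIndex S := Subgroup.relIndex_sup_right S H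
  have e8 := Subgroup.relIndex_mul_index (le_sup_right : H ≤ S ⊔ H)
  rw [e7] at e8
  obtain ⟨c, hc⟩ := h5
  rw [hc] at e8
  have h9 : (S ⊔ H).index = 1 := by
    have h10 : H.index * (c * (S ⊔ H).index) = H.index * 1 := by rw [← mul_assoc, e8, mul_one]
    have h11 := Nat.eq_of_mul_eq_mul_left (Nat.pos_of_ne_zero h0) h10
    exact Nat.eq_one_of_mul_eq_one_left h11
  exact Subgroup.index_eq_one.1 h9

/-- Irreducibility over a normal extension. -/
theorem irr_of_sup {f : k[X]} (hf : Irreducible f) (hs : f.Separable)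
    (L : IntermediateField k k') [FiniteDimensional k L] {θ : k'}
    (hθ : (f.map (algebraMap k k')).IsRoot θ) (hn : L.fixingSubgroup.Normal)
    (h1 : MulAction.stabilizer (k' ≃ₐ[k] k') θ ⊔ L.fixingSubgroup = ⊤) :
    Irreducible (f.map (algebraMap k L)) := by
  haveI : IsSepClosed k' := IsSepClosure.sep_closed k
  haveI : IsGalois k k' := inferInstance
  set S := MulAction.stabilizer (k' ≃ₐ[k] k') θ with hS
  set H := L.fixingSubgroup with hH
  have hint : ∀ x : k', IsIntegral k x := fun x => Algebra.IsIntegral.isIntegral x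
  haveI : FiniteDimensional k k⟮θ⟯ := IntermediateField.adjoin.finiteDimensional (hint θ)
  have e1 : H.relIndex S = H.index := by
    have h5 : H.relIndex (S ⊔ H) = H.relIndex S := Subgroup.relIndex_sup_right S H
    rw [h1, Subgroup.relIndex_top_right] at h5
    exact h5.symm
  have e2 := Subgroup.relIndex_mul_index (inf_le_left : S ⊓ H ≤ S)
  rw [Subgroup.inf_relIndex_left, e1] at e2
  have hSd : S.index = f.natDegree := by
    rw [hS, stab_index, natDegree_minpoly hf hθ]
  have hHd : H.index = Module.finrank k L := by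
    rw [hH, IntermediateField.finrank_eq_fixingSubgroup_index]
  have e3 : (L ⊔ k⟮θ⟯).fixingSubgroup = S ⊓ H := by
    rw [IntermediateField.fixingSubgroup_sup, ← stab_eq, inf_comm]
  have e4 : Module.finrank k (L ⊔ k⟮θ⟯ : IntermediateField k k') = Module.finrank k L * f.natDegree := by
    rw [IntermediateField.finrank_eq_fixingSubgroup_index, e3, ← e2, hHd, hSd]
  have hle : L ≤ L ⊔ k⟮θ⟯ := le_sup_left
  have hintL : IsIntegral L θ := (hint θ).tower_top
  have h2 : IntermediateField.extendScalars hle = L⟮θ⟯ := by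
    apply le_antisymm
    · intro x hx
      have hx' : x ∈ L ⊔ k⟮θ⟯ := hx
      have h3 : L ⊔ k⟮θ⟯ ≤ (L⟮θ⟯).restrictScalars k := by
        refine sup_le ?_ ?_
        · intro y hy
          exact (L⟮θ⟯).algebraMap_mem ⟨y, hy⟩
        · rw [IntermediateField.adjoin_simple_le_iff]
          exact IntermediateField.mem_adjoin_simple_self L θ
      exact h3 hx'
    · rw [IntermediateField.adjoin_simple_le_iff]
      exact (le_sup_right : k⟮θ⟯ ≤ L ⊔ k⟮θ⟯) (IntermediateField.mem_adjoin_simple_self k θ)
  have h3 : Module.finrank k L * Module.finrank L (IntermediateField.extendScalars hle) =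
      Module.finrank k (L ⊔ k⟮θ⟯ : IntermediateField k k') :=
    Module.finrank_mul_finrank k L (IntermediateField.extendScalars hle)
  rw [e4, h2, IntermediateField.adjoin.finrank hintL] at h3
  have h4 : (minpoly L θ).natDegree = f.natDegree :=
    Nat.eq_of_mul_eq_mul_left Module.finrank_pos h3
  have h5 : minpoly L θ ∣ f.map (algebraMap k L) := by
    apply minpoly.dvd
    rw [aeval_map_algebraMap]
    rw [IsRoot.def, eval_map_algebraMap] at hθ
    exact hθ
  have h6 : f.map (algebraMap k L) ≠ 0 :=
    (Polynomial.map_ne_zero_iff (algebraMap k L).injective).2 hf.ne_zero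
  have h7 := associated_of_dvd_of_natDegree_le h5 h6 (by rw [natDegree_map, h4])
  exact h7.irreducible (minpoly.irreducible hintL)

end root

end Pool.Agent.Helper70K9.F5
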