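import Pool.Agent.Helper70K9.F5.Fld

/-!
# The polynomials `β - e γ`, and the change between the fields `k(e)(z)` and `k(z)`
-/

set_option autoImplicit false
set_option linter.all false

open Polynomial
open scoped Classical IntermediateField

namespace Pool.Agent.Helper70K9.F5

open Pool.Agent.Helper70K9.TN Pool.Agent.Helper23K9.T5

/-- The polynomial `β - e γ` over `k(e)`. -/
noncomputable def tw5 {k k' : Type} [Field k] [Field k'] [Algebra k k'] (e : k') (β γ : k[X]) :
    (k⟮e⟯)[X] :=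
  β.map (algebraMap k k⟮e⟯) - C (IntermediateField.AdjoinSimple.gen k e) *
    γ.map (algebraMap k k⟮e⟯)

section transfer

variable {k k' : Type} [Field k] [Field k'] [Algebra k k']

theorem mem_tower {e z : k'} (he : e ∈ k⟮z⟯) (x : k') : x ∈ (k⟮e⟯)⟮z⟯ ↔ x ∈ k⟮z⟯ := by
  have hle : k⟮e⟯ ≤ k⟮z⟯ := by
    rw [IntermediateField.adjoin_simple_le_iff]
    exact he
  constructor
  · intro hx
    have h1 : (k⟮e⟯)⟮z⟯ ≤ IntermediateField.extendScalars hle := by
      rw [IntermediateField.adjoin_simple_le_iff]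
      exact IntermediateField.mem_adjoin_simple_self k z
    exact h1 hx
  · intro hx
    have h1 : k⟮z⟯ ≤ ((k⟮e⟯)⟮z⟯).restrictScalars k := by
      rw [IntermediateField.adjoin_simple_le_iff]
      exact IntermediateField.mem_adjoin_simple_self _ z
    exact h1 hx

/-- The identity. -/
noncomputable def tEq {e z : k'} (he : e ∈ k⟮z⟯) : (k⟮e⟯)⟮z⟯ ≃+* k⟮z⟯ where
  toFun x := ⟨x.1, (mem_tower he _).1 x.2⟩
  invFun x := ⟨x.1, (mem_tower he _).2 x.2⟩
  left_inv _ := rfl
  right_inv _ := rfl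
  map_mul' _ _ := rfl
  map_add' _ _ := rfl

theorem transfer {e z : k'} (he : e ∈ k⟮z⟯) {f : (k⟮e⟯)[X]}
    (hf : Irreducible (f.map (algebraMap k⟮e⟯ (k⟮e⟯)⟮z⟯))) {g : (k⟮z⟯)[X]}
    (hg : g.map (algebraMap k⟮z⟯ k') = f.map (algebraMap k⟮e⟯ k')) : Irreducible g := by
  have h1 : g = (Polynomial.mapEquiv (tEq he)) (f.map (algebraMap k⟮e⟯ (k⟮e⟯)⟮z⟯)) := by
    apply Polynomial.map_injective (algebraMap k⟮z⟯ k') (algebraMap k⟮z⟯ k').injective
    rw [hg, Polynomial.mapEquiv_apply, Polynomial.map_map, Polynomial.map_map]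
    rfl
  rw [h1]
  exact (MulEquiv.irreducible_iff (Polynomial.mapEquiv (tEq he))).2 hf

theorem sepClosure_adjoin [IsSepClosure k k'] (e : k') : IsSepClosure k⟮e⟯ k' := by
  haveI := IsSepClosure.sep_closed k (K := k')
  haveI := IsSepClosure.separable (k := k) (K := k')
  exact ⟨inferInstance, Algebra.isSeparable_tower_top_of_isSeparable k k⟮e⟯ k'⟩

theorem tw5_comp (e : k') (β γ h : k[X]) :
    tw5 e (β.comp h) (γ.comp h) = (tw5 e β γ).comp (h.map (algebraMap k k⟮e⟯)) := by
  unfold tw5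
  rw [sub_comp, mul_comp, C_comp, map_comp, map_comp]

theorem tw5_map (e : k') (β γ : k[X]) : (tw5 e β γ).map (algebraMap k⟮e⟯ k') =
    β.map (algebraMap k k') - C e * γ.map (algebraMap k k') := by
  unfold tw5
  rw [Polynomial.map_sub, Polynomial.map_mul, Polynomial.map_map, Polynomial.map_map, map_C,
    IntermediateField.AdjoinSimple.algebraMap_gen]
  rfl

end transfer

end Pool.Agent.Helper70K9.F5
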