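import Pool.Agent.Helper70K9.F5.Den
import Pool.Agent.Helper70K9.F5.Tw

/-!
# Densities for pairs of polynomials
-/

set_option autoImplicit false
set_option linter.all false

open Polynomial
open scoped IntermediateField

namespace Pool.Agent.Helper70K9.F5

open NumberField Pool.Agent.R939.EI Pool.Agent.R939.HI Pool.Agent.W275.UB
open Pool.Agent.R939.KM Pool.Agent.R939.PP Pool.Agent.Helper70K9.TN

/-- Additive maps are bounded. -/
theorem add_bound {ι κ : Type} [Fintype ι] [Fintype κ] (φ : (ι → ℤ) →+ (κ → ℤ)) :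
    ∃ c : ℕ, ∀ (x : ι → ℤ) (H : ℕ), (∀ i, |x i| ≤ (H : ℤ)) → ∀ j, |φ x j| ≤ ((c * H : ℕ) : ℤ) := by
  classical
  refine ⟨∑ j, ∑ i, (φ (Pi.single i 1) j).natAbs, fun x H hx j => ?_⟩
  have h1 : φ x = ∑ i, x i • φ (Pi.single i 1) := by
    conv_lhs => rw [← Finset.univ_sum_single x]
    rw [map_sum]
    refine Finset.sum_congr rfl fun i _ => ?_
    rw [← map_zsmul, ← Pi.single_smul]
    simp
  rw [h1, Finset.sum_apply]
  refine (Finset.abs_sum_le_sum_abs _ _).trans ?_
  have h2 : ∀ i, |(x i • φ (Pi.single i 1)) j| ≤ ((φ (Pi.single i 1) j).natAbs : ℤ) * H := by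
    intro i
    rw [Pi.smul_apply, smul_eq_mul, abs_mul, mul_comm, Int.natCast_natAbs]
    exact mul_le_mul_of_nonneg_left (hx i) (abs_nonneg _)
  refine (Finset.sum_le_sum fun i _ => h2 i).trans ?_
  rw [← Finset.sum_mul]
  push_cast
  refine mul_le_mul_of_nonneg_right ?_ (by positivity)
  exact Finset.single_le_sum (f := fun j => ∑ i, |φ (Pi.single i 1) j|)
    (fun j _ => Finset.sum_nonneg fun i _ => abs_nonneg _) (Finset.mem_univ j)
    |>.trans' (by simp [Int.natCast_natAbs])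

section pair

variable {k : Type} [Field k] [NumberField k] {J : Type} [Fintype J] (B : Module.Basis J ℤ (𝓞 k))
  {m : ℕ} {κ : Type} [Field κ] [NumberField κ] [Algebra k κ] {J2 : Type} [Fintype J2]
  (B2 : Module.Basis J2 ℤ (𝓞 κ))

/-- The index set of the pairs. -/
abbrev I2 (m : ℕ) := Fin (m + 1) ⊕ Fin (m + 1)

theorem elt_add (z z' : J → ℤ) : elt B (z + z') = elt B z + elt B z' := by
  unfold elt
  rw [← Finset.sum_add_distrib]
  refine Finset.sum_congr rfl fun t _ => ?_
  rw [Pi.add_apply]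
  push_cast
  ring

/-- The coefficient `β_j - e γ_j`. -/
noncomputable def dl (e : 𝓞 κ) (x : I2 m × J → ℤ) (j : Fin (m + 1)) : 𝓞 κ :=
  algebraMap (𝓞 k) (𝓞 κ) (elt B fun t => x (Sum.inl j, t)) -
    e * algebraMap (𝓞 k) (𝓞 κ) (elt B fun t => x (Sum.inr j, t))

theorem dl_add (e : 𝓞 κ) (x y : I2 m × J → ℤ) (j : Fin (m + 1)) :
    dl B e (x + y) j = dl B e x j + dl B e y j := by
  unfold dl
  have h1 : ∀ s : I2 m, (elt B fun t => (x + y) (s, t)) =
      (elt B fun t => x (s, t)) + elt B fun t => y (s, t) := by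
    intro s
    rw [← elt_add]
    rfl
  rw [h1, h1, map_add, map_add]
  ring

/-- Its coordinates. -/
noncomputable def ph2 (e : 𝓞 κ) : (I2 m × J → ℤ) →+ (Fin (m + 1) × J2 → ℤ) where
  toFun x p := B2.repr (dl B e x p.1) p.2
  map_zero' := by
    funext p
    have h1 : dl B e (0 : I2 m × J → ℤ) p.1 = 0 := by
      have h2 := dl_add B e (0 : I2 m × J → ℤ) 0 p.1
      rw [add_zero] at h2
      exact left_eq_add.1 h2
    show B2.repr (dl B e (0 : I2 m × J → ℤ) p.1) p.2 = 0
    rw [h1, map_zero]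
    rfl
  map_add' x y := by
    funext p
    show B2.repr (dl B e (x + y) p.1) p.2 = B2.repr (dl B e x p.1) p.2 + B2.repr (dl B e y p.1) p.2
    rw [dl_add, map_add]
    rfl

theorem kv_ph2 (e : 𝓞 κ) (x : I2 m × J → ℤ) (j : Fin (m + 1)) :
    kv B2 (ph2 B B2 e x) j = algebraMap k κ (kv B x (Sum.inl j)) -
      (e : κ) * algebraMap k κ (kv B x (Sum.inr j)) := by
  have h1 : kv B2 (ph2 B B2 e x) j = algebraMap (𝓞 κ) κ (dl B e x j) := by
    show algebraMap (𝓞 κ) κ (elt B2 fun t => B2.repr (dl B e x j) t) = _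
    rw [← basis_elt B2]
  rw [h1]
  unfold dl
  rw [map_sub, map_mul, ← IsScalarTower.algebraMap_apply (𝓞 k) (𝓞 κ) κ,
    ← IsScalarTower.algebraMap_apply (𝓞 k) (𝓞 κ) κ, IsScalarTower.algebraMap_apply (𝓞 k) k κ,
    IsScalarTower.algebraMap_apply (𝓞 k) k κ]
  rfl

theorem ph2_inj {e : 𝓞 κ} {x y : I2 m × J → ℤ} (h : ph2 B B2 e x = ph2 B B2 e y)
    (h2 : (∀ r : k, algebraMap k κ r ≠ (e : κ)) ∨ ∀ p : Fin (m + 1) × J,
      x (Sum.inr p.1, p.2) = y (Sum.inr p.1, p.2)) : x = y := by
  have h1 : ∀ j, algebraMap k κ (kv B x (Sum.inl j)) - (e : κ) * algebraMap k κ (kv B x (Sum.inr j)) =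
      algebraMap k κ (kv B y (Sum.inl j)) - (e : κ) * algebraMap k κ (kv B y (Sum.inr j)) := by
    intro j
    rw [← kv_ph2 B B2, ← kv_ph2 B B2, h]
  have hinj := (algebraMap k κ).injective
  have h3 : ∀ j, kv B x (Sum.inr j) = kv B y (Sum.inr j) := by
    intro j
    rcases h2 with h2 | h2
    · by_contra hne
      have hd : kv B x (Sum.inr j) - kv B y (Sum.inr j) ≠ 0 := sub_ne_zero.2 hne
      have hd' : algebraMap k κ (kv B x (Sum.inr j) - kv B y (Sum.inr j)) ≠ 0 :=
        (_root_.map_ne_zero _).2 hd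
      apply h2 ((kv B x (Sum.inl j) - kv B y (Sum.inl j)) / (kv B x (Sum.inr j) - kv B y (Sum.inr j)))
      rw [map_div₀, div_eq_iff hd', map_sub, map_sub]
      linear_combination h1 j
    · show algebraMap (𝓞 k) k (elt B fun t => x (Sum.inr j, t)) =
        algebraMap (𝓞 k) k (elt B fun t => y (Sum.inr j, t))
      congr 2
      funext t
      exact h2 (j, t)
  have h4 : ∀ j, kv B x (Sum.inl j) = kv B y (Sum.inl j) := by
    intro j
    apply hinj
    have := h1 j
    rw [h3 j] at this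
    linear_combination this
  have h5 : ∀ s : I2 m, (elt B fun t => x (s, t)) = elt B fun t => y (s, t) := by
    intro s
    apply FaithfulSMul.algebraMap_injective (𝓞 k) k
    rcases s with j | j
    · exact h4 j
    · exact h3 j
  funext q
  obtain ⟨s, t⟩ := q
  have h6 := congrArg (fun z => B.repr z t) (h5 s)
  simp only [repr_elt] at h6
  exact h6

include B2 in
/-- **The conditions on `β - e γ`.** -/
theorem dens_tw (hm : 3 ≤ m) (e : 𝓞 κ)
    (hκ : (Module.finrank k κ = 2 ∧ ∀ r : k, algebraMap k κ r ≠ (e : κ)) ∨ Module.finrank k κ = 1) :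
    D0 {x : I2 m × J → ℤ | ¬ GoodP m (polA fun j => algebraMap k κ (kv B x (Sum.inl j)) -
      (e : κ) * algebraMap k κ (kv B x (Sum.inr j)))} := by
  obtain ⟨c, hc⟩ := add_bound (ph2 B B2 e (m := m))
  have hJ : Fintype.card J = Module.finrank ℚ k := card_J B
  have hJ2 : Fintype.card J2 = Module.finrank ℚ κ := card_J B2
  haveI : IsScalarTower ℚ k κ := IsScalarTower.of_algebraMap_eq fun q => by simp
  have hmul : Module.finrank ℚ κ = Module.finrank ℚ k * Module.finrank k κ :=
    (Module.finrank_mul_finrank ℚ k κ).symm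
  have hset : {x : I2 m × J → ℤ | ¬ GoodP m (polA fun j => algebraMap k κ (kv B x (Sum.inl j)) -
      (e : κ) * algebraMap k κ (kv B x (Sum.inr j)))} =
      {x : I2 m × J → ℤ | ph2 B B2 e x ∈ {y | ¬ GoodP m (polA (kv B2 y))}} := by
    ext x
    simp only [Set.mem_setOf_eq]
    have h1 : (fun j => algebraMap k κ (kv B x (Sum.inl j)) -
        (e : κ) * algebraMap k κ (kv B x (Sum.inr j))) = kv B2 (ph2 B B2 e x) := by
      funext j
      exact (kv_ph2 B B2 e x j).symm
    rw [h1]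
  rw [hset]
  rcases hκ with ⟨h2, hne⟩ | h1
  · refine D0_pull (ρ := Empty) (good_dens B2 hm) (ph2 B B2 e) c hc Empty.elim
      (fun x y hxy _ => ph2_inj B B2 hxy (Or.inl hne)) ?_
    rw [Fintype.card_prod, Fintype.card_prod, Fintype.card_sum, Fintype.card_fin, hJ, hJ2, hmul, h2,
      Fintype.card_empty]
    ring
  · refine D0_pull (ρ := Fin (m + 1) × J) (good_dens B2 hm) (ph2 B B2 e) c hc
      (fun p => (Sum.inr p.1, p.2)) (fun x y hxy h3 => ph2_inj B B2 hxy (Or.inr h3)) ?_
    rw [Fintype.card_prod, Fintype.card_prod, Fintype.card_prod, Fintype.card_sum, Fintype.card_fin,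
      hJ, hJ2, hmul, h1]
    ring

/-- The conditions on `β` and `γ`. -/
theorem dens_side (hm : 3 ≤ m) (s : Fin (m + 1) → I2 m) (hs : Function.Injective s) :
    D0 {x : I2 m × J → ℤ | ¬ GoodP m (polA fun j => kv B x (s j))} := by
  intro ε hε
  have h1 := good_dens B hm ε hε
  have h2 := UD_pull hε.le h1 (fun p : Fin (m + 1) × J => (s p.1, p.2)) (by
    rintro ⟨a, b⟩ ⟨c, d⟩ h
    have h3 := Prod.ext_iff.1 h
    exact Prod.ext (hs h3.1) h3.2)
  exact h2

/-- `β` and `γ` are not proportional. -/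
theorem dens_prop (hm : 1 ≤ m) : D0 {x : I2 m × J → ℤ |
    kv B x (Sum.inl 0) * kv B x (Sum.inr (Fin.last m)) -
      kv B x (Sum.inl (Fin.last m)) * kv B x (Sum.inr 0) = 0} := by
  have hl0 : Fin.last m ≠ 0 := by
    intro h
    have h1 := congrArg Fin.val h
    simp at h1
    omega
  have h1 := dens_lead (ω := B) (ι := I2 m) (P := C (MvPolynomial.X (Sum.inl 0) *
    MvPolynomial.X (Sum.inr (Fin.last m)) - MvPolynomial.X (Sum.inl (Fin.last m)) *
      MvPolynomial.X (Sum.inr 0) : MvPolynomial (I2 m) ℤ)) (N := 0) (by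
    rw [coeff_C_zero]
    intro h
    have h2 := congrArg (MvPolynomial.eval (fun s : I2 m => if s = Sum.inl 0 ∨ s = Sum.inr (Fin.last m)
      then (1 : ℤ) else 0)) h
    rw [map_sub, map_mul, map_mul, MvPolynomial.eval_X, MvPolynomial.eval_X, MvPolynomial.eval_X,
      MvPolynomial.eval_X, map_zero] at h2
    have h3 : ¬ ((Sum.inl (Fin.last m) : I2 m) = Sum.inl 0 ∨
        (Sum.inl (Fin.last m) : I2 m) = Sum.inr (Fin.last m)) := by
      rintro (h | h)
      · exact hl0 (Sum.inl_injective h)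
      · cases h
    have e1 : (if (Sum.inl 0 : I2 m) = Sum.inl 0 ∨ (Sum.inl 0 : I2 m) = Sum.inr (Fin.last m)
        then (1 : ℤ) else 0) = 1 := if_pos (Or.inl rfl)
    have e2 : (if (Sum.inr (Fin.last m) : I2 m) = Sum.inl 0 ∨
        (Sum.inr (Fin.last m) : I2 m) = Sum.inr (Fin.last m)
        then (1 : ℤ) else 0) = 1 := if_pos (Or.inr rfl)
    have e3 : (if (Sum.inl (Fin.last m) : I2 m) = Sum.inl 0 ∨
        (Sum.inl (Fin.last m) : I2 m) = Sum.inr (Fin.last m)
        then (1 : ℤ) else 0) = 0 := if_neg h3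
    rw [e1, e2, e3] at h2
    norm_num at h2)
  intro ε hε
  refine (h1 ε hε).mono ?_
  intro x hx
  rw [Set.mem_setOf_eq] at hx ⊢
  rw [Polynomial.map_C, coeff_C_zero, map_sub, map_mul, map_mul, av_X, av_X, av_X, av_X]
  exact hx

end pair

section all

variable {k k' : Type} [Field k] [NumberField k] [Field k'] [Algebra k k'] [IsSepClosure k k']
  {J : Type} [Fintype J] (B : Module.Basis J ℤ (𝓞 k)) {m : ℕ}

/-- All the conditions. -/
structure AllC (k' : Type) [Field k'] [Algebra k k'] (m : ℕ) (β γ : k[X]) : Prop where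
  b : GoodP m β
  g : GoodP m γ
  cop : IsCoprime β γ
  e : ∀ e : k', e ^ 2 - 11 * e - 1 = 0 → GoodP m (tw5 e β γ)

theorem tw5_polA (e : k') (a b : Fin (m + 1) → k) : tw5 e (polA a) (polA b) =
    polA fun j => algebraMap k k⟮e⟯ (a j) -
      IntermediateField.AdjoinSimple.gen k e * algebraMap k k⟮e⟯ (b j) := by
  unfold tw5
  rw [polA_map, polA_map]
  unfold polA
  rw [Finset.mul_sum, ← Finset.sum_sub_distrib]
  refine Finset.sum_congr rfl fun j _ => ?_
  rw [C_sub, C_mul]
  ring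

theorem coprime_of {a b : Fin (m + 1) → k} (hβ : GoodP m (polA a))
    (hγ : GoodP m (polA b)) (h : a 0 * b (Fin.last m) - a (Fin.last m) * b 0 ≠ 0) :
    IsCoprime (polA a) (polA b) := by
  rw [hβ.irr.coprime_iff_not_dvd]
  intro hd
  obtain ⟨u, hu⟩ := hβ.irr.associated_of_dvd hγ.irr hd
  obtain ⟨c, hc, hcu⟩ := Polynomial.isUnit_iff.1 u.isUnit
  rw [← hcu] at hu
  apply h
  have h1 : ∀ j : Fin (m + 1), b j = a j * c := by
    intro j
    have h2 := congrArg (fun f : k[X] => f.coeff (j : ℕ)) hu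
    simp only [coeff_mul_C, coeff_polA] at h2
    exact h2.symm
  rw [h1, h1]
  ring

/-- The condition for one root. -/
theorem dens_e (hm : 3 ≤ m) {e : k'} (he : e ^ 2 - 11 * e - 1 = 0) :
    D0 {x : I2 m × J → ℤ | ¬ GoodP m (tw5 e (polA fun j => kv B x (Sum.inl j))
      (polA fun j => kv B x (Sum.inr j)))} := by
  haveI : IsSepClosed k' := IsSepClosure.sep_closed k
  have hint : IsIntegral k e := Algebra.IsIntegral.isIntegral e
  haveI : FiniteDimensional k k⟮e⟯ := IntermediateField.adjoin.finiteDimensional hint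
  haveI : CharZero k⟮e⟯ := charZero_of_injective_algebraMap (algebraMap k k⟮e⟯).injective
  haveI : IsScalarTower ℚ k k⟮e⟯ := IsScalarTower.of_algebraMap_eq fun q => by simp
  haveI : FiniteDimensional ℚ k⟮e⟯ := FiniteDimensional.trans ℚ k k⟮e⟯
  haveI : NumberField k⟮e⟯ := { to_charZero := inferInstance, to_finiteDimensional := inferInstance }
  set g := IntermediateField.AdjoinSimple.gen k e with hg
  have hgr : g ^ 2 - 11 * g - 1 = 0 := by
    apply (algebraMap k⟮e⟯ k').injective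
    rw [map_sub, map_sub, map_mul, map_pow, map_one, map_zero, map_ofNat,
      IntermediateField.AdjoinSimple.algebraMap_gen]
    exact he
  have hgi : IsIntegral ℤ g := by
    refine ⟨X ^ 2 - 11 * X - 1, ?_, ?_⟩
    · have : (X ^ 2 - 11 * X - 1 : ℤ[X]) = X ^ 2 - C 11 * X - 1 := by
        rw [show (C 11 : ℤ[X]) = 11 from map_ofNat C 11]
      rw [this]
      monicity!
    · rw [← aeval_def]
      simp only [map_sub, map_mul, map_pow, aeval_X, map_one, map_ofNat]
      exact hgr
  let g0 : 𝓞 k⟮e⟯ := ⟨g, hgi⟩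
  have hfr : Module.finrank k k⟮e⟯ = (minpoly k e).natDegree := IntermediateField.adjoin.finrank hint
  have hle : (minpoly k e).natDegree ≤ 2 := by
    rw [← Pool.Agent.Helper7K9.T3.stab_index (k := k) e]
    exact index_e he
  have hpos : 0 < (minpoly k e).natDegree := minpoly.natDegree_pos hint
  have key := dens_tw (m := m) B (RingOfIntegers.basis k⟮e⟯) hm g0 (by
    rw [hfr]
    by_cases h2 : (minpoly k e).natDegree = 2
    · left
      refine ⟨h2, fun r hr => ?_⟩
      have h3 : (algebraMap k k') r = e := by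
        rw [IsScalarTower.algebraMap_apply k k⟮e⟯ k', hr]
        exact IntermediateField.AdjoinSimple.algebraMap_gen k e
      rw [← h3, minpoly.eq_X_sub_C, natDegree_X_sub_C] at h2
      norm_num at h2
    · right
      omega)
  intro ε hε
  refine (key ε hε).mono ?_
  intro x hx
  rw [Set.mem_setOf_eq, tw5_polA] at hx
  exact hx

/-- **All the conditions hold for almost all parameters.** -/
theorem dens_all (hm : 3 ≤ m) : D0 {x : I2 m × J → ℤ | ¬ AllC k' m
    (polA fun j => kv B x (Sum.inl j)) (polA fun j => kv B x (Sum.inr j))} := by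
  haveI : IsSepClosed k' := IsSepClosure.sep_closed k
  have h1 := dens_side B hm Sum.inl Sum.inl_injective
  have h2 := dens_side B hm Sum.inr Sum.inr_injective
  have h3 := dens_prop (m := m) B (by omega)
  -- the two roots
  have h4 : ∃ e1 e2 : k', ∀ e : k', e ^ 2 - 11 * e - 1 = 0 → e = e1 ∨ e = e2 := by
    by_cases h : ∃ e : k', e ^ 2 - 11 * e - 1 = 0
    · obtain ⟨e1, h1⟩ := h
      refine ⟨e1, 11 - e1, fun e he => ?_⟩
      have h5 : (e - e1) * (e - (11 - e1)) = 0 := by linear_combination he - h1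
      rcases mul_eq_zero.1 h5 with h6 | h6
      · exact Or.inl (sub_eq_zero.1 h6)
      · exact Or.inr (sub_eq_zero.1 h6)
    · exact ⟨0, 0, fun e he => (h ⟨e, he⟩).elim⟩
  obtain ⟨e1, e2, h4⟩ := h4
  have h5 : ∀ e : k', D0 {x : I2 m × J → ℤ | e ^ 2 - 11 * e - 1 = 0 ∧
      ¬ GoodP m (tw5 e (polA fun j => kv B x (Sum.inl j)) (polA fun j => kv B x (Sum.inr j)))} := by
    intro e
    by_cases he : e ^ 2 - 11 * e - 1 = 0
    · intro ε hε
      exact (dens_e B hm he ε hε).mono fun x hx => hx.2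
    · intro ε hε
      exact (D0.empty ε hε).mono fun x hx => (he hx.1).elim
  intro ε hε
  refine (((((h1.union h2).union h3).union (h5 e1)).union (h5 e2)) ε hε).mono ?_
  intro x hx
  by_contra hcon
  simp only [Set.mem_union, not_or] at hcon
  obtain ⟨⟨⟨⟨k1, k2⟩, k3⟩, k4⟩, k5⟩ := hcon
  have k1' : GoodP m (polA fun j => kv B x (Sum.inl j)) := not_not.1 k1
  have k2' : GoodP m (polA fun j => kv B x (Sum.inr j)) := not_not.1 k2
  refine hx ⟨k1', k2', coprime_of k1' k2' k3, fun e he => ?_⟩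
  by_contra hg
  rcases h4 e he with rfl | rfl
  · exact k4 ⟨he, hg⟩
  · exact k5 ⟨he, hg⟩

end all

end Pool.Agent.Helper70K9.F5
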